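import Mathlib
import Pool.Agent.Lib.MP_da4d09_nt.PL.All

/-!
The parity version of Linnik's theorem, for all moduli and with exponent `2 + ε`: every reduced
residue class modulo `n` contains integers `m ≤ C n ^ (2 + ε)` with at most `C` prime factors, all
of them greater than `n ^ (1 / C)`, of both parities of the number of prime factors.
-/

set_option autoImplicit false

theorem Pool.Agent.Results.MP_da4d09_nt.ParityLinnik.result :
    ∀ ε : ℝ, 0 < ε → ∃ C : ℕ, ∀ n : ℕ, 0 < n → ∀ a : ℕ, a.Coprime n → ∀ r : ℕ, r < 2 →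
      ∃ m : ℕ, m ≡ a [MOD n] ∧ (m : ℝ) ≤ C * (n : ℝ) ^ (2 + ε) ∧
        (∀ p : ℕ, p.Prime → p ∣ m → n < p ^ C) ∧
        m.primeFactorsList.length ≤ C ∧ m.primeFactorsList.length % 2 = r := by
  intro ε hε
  obtain ⟨C, hC⟩ := Pool.Agent.Lib.MP_da4d09_nt.PL.parity_linnik_all
    Pool.Agent.Lib.MP_da4d09_nt.PL.all_B ε hε
  refine ⟨C, fun n hn a ha r hr => ?_⟩
  obtain ⟨m, h1, h2, h3, h4, h5⟩ := hC n hn a ha r hr
  rw [ArithmeticFunction.cardFactors_apply] at h4 h5
  exact ⟨m, h1, h2, h3, h4, h5⟩
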