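import Mathlib
import Pool.Agent.Lib.MP_da4d09_nt.PL.A

/-!
For every prime `n` every residue class modulo `n` contains an integer `0 < m < 2 n ^ 2` with an
even number of prime factors and one with an odd number of prime factors.
-/

set_option autoImplicit false

theorem Pool.Agent.Results.MP_da4d09_nt.ParityPrimeModulus.result :
    ∀ n : ℕ, n.Prime → ∀ a r : ℕ, r < 2 →
      ∃ m : ℕ, 0 < m ∧ m < 2 * n ^ 2 ∧ m ≡ a [MOD n] ∧ m.primeFactorsList.length % 2 = r := by
  intro n hn a r hr
  obtain ⟨m, h0, h1, h2, h3⟩ := Pool.Agent.Lib.MP_da4d09_nt.PL.parity_prime n hn a r hr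
  rw [ArithmeticFunction.cardFactors_apply] at h3
  exact ⟨m, h0, h1, h2, h3⟩
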